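import Pool.Agent.L5helper98.CQ.Stmts

/-!
Project CQ (MP_b09bc5_pr): the probability part of the upper bound (`TaskUpPb`).
-/

set_option autoImplicit false

namespace Pool.Agent.L5helper84.CQ

open Finset Pool.Agent.L5helper98.CQ
open scoped Classical

variable {n : ℕ}

lemma colorable_mono (ω : Om n) {k k' : ℕ} (h : k ≤ k') (hc : colorable ω k) : colorable ω k' := by
  obtain ⟨c, hc1, hc2⟩ := hc
  exact ⟨c, fun v => lt_of_lt_of_le (hc1 v) h, hc2⟩

/-- the weighted degree of `v` -/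
noncomputable def wd (ω : Om n) (r Q : ℕ) (R V2 : Finset (Fin n)) (v : Fin n) : ℝ :=
  ((hyp ω r R V2).filter (fun K => v ∈ K)).card * (1 / (Q : ℝ)) ^ (r - 1) +
    ((hyp ω (r + 1) R ∅).filter (fun K => v ∈ K)).card * (1 / (Q : ℝ)) ^ r

/-- the pairs which do not meet `T` -/
noncomputable def off (T : Finset (Fin n)) : Finset (Sym2 (Fin n)) :=
  univ.filter (fun e => ∀ v ∈ T, v ∉ e)

lemma mem_off (T : Finset (Fin n)) (u v : Fin n) : s(u, v) ∈ off T ↔ u ∉ T ∧ v ∉ T := by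
  unfold off
  simp only [mem_filter, mem_univ, true_and, Sym2.mem_iff]
  constructor
  · intro h
    exact ⟨fun hu => h u hu (Or.inl rfl), fun hv => h v hv (Or.inr rfl)⟩
  · rintro ⟨hu, hv⟩ w hw (rfl | rfl)
    · exact hu hw
    · exact hv hw

lemma adj_mix_of_mem (T : Finset (Fin n)) (ω ω' : Om n) (u v : Fin n) (hu : u ∈ T) :
    adj (mix (off T) ω ω') u v ↔ adj ω' u v := by
  unfold adj
  rw [mem_mix, mem_off]
  simp [hu]

lemma mem_mix_of_not_mem (T : Finset (Fin n)) (ω ω' : Om n) (u v : Fin n) (hu : u ∉ T)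
    (hv : v ∉ T) : s(u, v) ∈ mix (off T) ω ω' ↔ s(u, v) ∈ ω := by
  rw [mem_mix, mem_off]
  simp [hu, hv]

lemma away_mix (T : Finset (Fin n)) (ω ω' : Om n) : away (mix (off T) ω ω') T = away ω' T := by
  unfold away
  apply Finset.filter_congr
  intro u _
  constructor
  · intro h v hv ha
    exact h v hv ((adj_mix_of_mem T ω ω' v u hv).2 ha)
  · intro h v hv ha
    exact h v hv ((adj_mix_of_mem T ω ω' v u hv).1 ha)

lemma hyp_mix (T : Finset (Fin n)) (ω ω' : Om n) (r : ℕ) (R V2 : Finset (Fin n))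
    (hR : Disjoint R T) (hV : Disjoint V2 T) :
    hyp (mix (off T) ω ω') r R V2 = hyp ω r R V2 := by
  unfold hyp
  apply Finset.filter_congr
  intro K hK
  have hKR := (mem_powersetCard.1 hK).1
  have hKT : ∀ u ∈ K, u ∉ T := fun u hu => Finset.disjoint_left.1 hR (hKR hu)
  have hVT : ∀ w ∈ V2, w ∉ T := fun w hw => Finset.disjoint_left.1 hV hw
  apply and_congr
  · unfold cl
    constructor
    · intro h u hu v hv huv
      exact (mem_mix_of_not_mem T ω ω' u v (hKT u hu) (hKT v hv)).1 (h u hu v hv huv)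
    · intro h u hu v hv huv
      exact (mem_mix_of_not_mem T ω ω' u v (hKT u hu) (hKT v hv)).2 (h u hu v hv huv)
  · apply forall₂_congr
    intro w hw
    apply exists_congr
    intro u
    apply and_congr_right
    intro hu
    unfold adj
    rw [mem_mix_of_not_mem T ω ω' w u (hVT w hw) (hKT u hu)]

lemma wd_mix (T : Finset (Fin n)) (ω ω' : Om n) (r Q : ℕ) (R V2 : Finset (Fin n)) (v : Fin n)
    (hR : Disjoint R T) (hV : Disjoint V2 T) :
    wd (mix (off T) ω ω') r Q R V2 v = wd ω r Q R V2 v := by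
  unfold wd
  rw [hyp_mix T ω ω' r R V2 hR hV, hyp_mix T ω ω' (r + 1) R ∅ hR (disjoint_empty_left _)]

/-- the fourth bad event -/
def E4 (r Q : ℕ) (ρ m1 : ℝ) (T : Finset (Fin n)) (ω : Om n) : Prop :=
  ((away ω T).card : ℝ) ≤ m1 ∧
    ∃ v ∈ away ω T \ T, ρ < wd ω r Q (away ω T \ T) (univ \ (away ω T ∪ T)) v

lemma Pb_E4 (r Q : ℕ) (p ρ m1 q : ℝ) (T : Finset (Fin n)) (h0 : 0 ≤ p) (h1 : p ≤ 1)
    (hq : 0 ≤ q)
    (H : ∀ R V2 : Finset (Fin n), Disjoint R V2 → (R.card : ℝ) ≤ m1 →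
      (n : ℝ) - m1 - T.card ≤ V2.card →
      Pb p (fun ω : Om n => ∃ v ∈ R, ρ < wd ω r Q R V2 v) ≤ q) :
    Pb p (E4 r Q ρ m1 T) ≤ q := by
  apply Pb_le_of_mix h0 h1 (off T)
  intro ω'
  by_cases hm : ((away ω' T).card : ℝ) ≤ m1
  · have hcard : ((away ω' T ∪ T).card : ℝ) ≤ m1 + T.card := by
      have := Finset.card_union_le (away ω' T) T
      have h2 : ((away ω' T ∪ T).card : ℝ) ≤ ((away ω' T).card + T.card : ℕ) := by
        exact_mod_cast this
      push_cast at h2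
      linarith
    have hV2 : ((univ \ (away ω' T ∪ T)).card : ℝ) = n - (away ω' T ∪ T).card := by
      have h3 := Finset.card_sdiff_add_card_eq_card (Finset.subset_univ (away ω' T ∪ T))
      rw [Finset.card_univ, Fintype.card_fin] at h3
      have h4 : ((univ \ (away ω' T ∪ T)).card : ℝ) + (away ω' T ∪ T).card = n := by
        exact_mod_cast h3
      linarith
    refine le_trans (Pb_mono h0 h1 ?_) (H (away ω' T \ T) (univ \ (away ω' T ∪ T)) ?_ ?_ ?_)
    · intro ω hω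
      obtain ⟨_, v, hv, hlt⟩ := hω
      rw [away_mix] at hv hlt
      rw [wd_mix T ω ω' r Q _ _ v] at hlt
      · exact ⟨v, hv, hlt⟩
      · exact Finset.sdiff_disjoint
      · rw [Finset.disjoint_left]
        intro w hw hwT
        exact (mem_sdiff.1 hw).2 (mem_union_right _ hwT)
    · rw [Finset.disjoint_left]
      intro w hw hw2
      exact (mem_sdiff.1 hw2).2 (mem_union_left _ (mem_sdiff.1 hw).1)
    · refine le_trans ?_ hm
      exact_mod_cast Finset.card_le_card Finset.sdiff_subset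
    · rw [hV2]
      linarith
  · have : Pb p (fun ω : Om n => E4 r Q ρ m1 T (mix (off T) ω ω')) =
        Pb p (fun _ : Om n => False) := by
      congr 1
      funext ω
      apply propext
      constructor
      · intro h
        apply hm
        have := h.1
        rwa [away_mix] at this
      · exact False.elim
    rw [this]
    unfold Pb
    simp only [if_false]
    rw [Ex_const]
    exact hq

/-- the deterministic part -/
lemma colorable_of_good (hCol : TaskCol) (hUp : TaskUpDet) (r a j Q : ℕ) (ρ m1 : ℝ)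
    (T : Finset (Fin n)) (hr : 2 ≤ r) (hrn : r ≤ n) (hQ : 1 ≤ Q) (hρ : 0 ≤ ρ)
    (hm : ρ ^ j * m1 < 1) (ω : Om n) (e1 : ((away ω T).card : ℝ) ≤ m1)
    (e2 : (away ω T ∩ T).card ≤ a)
    (e3 : ∀ K : Finset (Fin n), K.card = r - 1 → ∃ w, w ∉ K ∧ ∀ u ∈ K, adj ω w u)
    (e4 : ∀ v ∈ away ω T \ T, wd ω r Q (away ω T \ T) (univ \ (away ω T ∪ T)) v ≤ ρ) :
    colorable ω (T.card + a + j * Q) := by
  obtain ⟨R, hR⟩ : ∃ R, R = away ω T \ T := ⟨_, rfl⟩
  obtain ⟨V2, hV2⟩ : ∃ V2, V2 = univ \ (away ω T ∪ T) := ⟨_, rfl⟩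
  rw [← hR, ← hV2] at e4
  have hhyp : ∀ (s : ℕ) (V : Finset (Fin n)) (e : Finset (Fin n)), e ∈ hyp ω s R V →
      e ⊆ R ∧ e.card = s := fun s V e he => mem_powersetCard.1 (mem_filter.1 he).1
  obtain ⟨c, hc1, hc2⟩ := hCol n R (hyp ω r R V2 ∪ hyp ω (r + 1) R ∅) Q j ρ hQ hρ
    (by
      intro e he
      rcases mem_union.1 he with h | h
      · obtain ⟨h1, h2⟩ := hhyp _ _ _ h
        exact ⟨Finset.card_pos.1 (by omega), h1⟩
      · obtain ⟨h1, h2⟩ := hhyp _ _ _ h
        exact ⟨Finset.card_pos.1 (by omega), h1⟩)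
    (by
      intro v hv
      have hnn : ∀ e : Finset (Fin n), 0 ≤ (1 / (Q : ℝ)) ^ (e.card - 1) := fun e => by positivity
      rw [Finset.filter_union]
      have h1 : ∑ e ∈ (hyp ω r R V2).filter (fun e => v ∈ e) ∪
          (hyp ω (r + 1) R ∅).filter (fun e => v ∈ e), (1 / (Q : ℝ)) ^ (e.card - 1) ≤
          ∑ e ∈ (hyp ω r R V2).filter (fun e => v ∈ e), (1 / (Q : ℝ)) ^ (e.card - 1) +
          ∑ e ∈ (hyp ω (r + 1) R ∅).filter (fun e => v ∈ e), (1 / (Q : ℝ)) ^ (e.card - 1) := by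
        have := Finset.sum_union_inter
          (s₁ := (hyp ω r R V2).filter (fun e => v ∈ e))
          (s₂ := (hyp ω (r + 1) R ∅).filter (fun e => v ∈ e))
          (f := fun e => (1 / (Q : ℝ)) ^ (e.card - 1))
        have h2 : 0 ≤ ∑ e ∈ (hyp ω r R V2).filter (fun e => v ∈ e) ∩
          (hyp ω (r + 1) R ∅).filter (fun e => v ∈ e), (1 / (Q : ℝ)) ^ (e.card - 1) :=
          Finset.sum_nonneg fun e _ => hnn e
        linarith
      have h3 : ∑ e ∈ (hyp ω r R V2).filter (fun e => v ∈ e), (1 / (Q : ℝ)) ^ (e.card - 1) =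
          ((hyp ω r R V2).filter (fun K => v ∈ K)).card * (1 / (Q : ℝ)) ^ (r - 1) := by
        rw [Finset.sum_congr rfl (g := fun _ => (1 / (Q : ℝ)) ^ (r - 1)), Finset.sum_const,
          nsmul_eq_mul]
        intro e he
        rw [(hhyp _ _ _ (mem_filter.1 he).1).2]
      have h4 : ∑ e ∈ (hyp ω (r + 1) R ∅).filter (fun e => v ∈ e), (1 / (Q : ℝ)) ^ (e.card - 1) =
          ((hyp ω (r + 1) R ∅).filter (fun K => v ∈ K)).card * (1 / (Q : ℝ)) ^ r := by
        rw [Finset.sum_congr rfl (g := fun _ => (1 / (Q : ℝ)) ^ r), Finset.sum_const,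
          nsmul_eq_mul]
        intro e he
        rw [(hhyp _ _ _ (mem_filter.1 he).1).2]
        rfl
      have h5 := e4 v hv
      unfold wd at h5
      linarith)
    (by
      have hle : (R.card : ℝ) ≤ m1 := by
        refine le_trans ?_ e1
        rw [hR]
        exact_mod_cast Finset.card_le_card Finset.sdiff_subset
      calc ρ ^ j * R.card ≤ ρ ^ j * m1 := mul_le_mul_of_nonneg_left hle (by positivity)
        _ < 1 := hm)
  refine colorable_mono ω ?_ (hUp n r (j * Q) ω T c hr hrn e3 ?_ ?_)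
  · omega
  · intro v hv
    rw [← hR] at hv
    exact hc1 v hv
  · intro K hK
    rw [← hR, ← hV2] at hK
    exact hc2 K hK

theorem taskUpPb : TaskUpPb := by
  intro hCol hUp n r a j Q p ρ m1 q T h0 h1 hr hrn hQ hρ hq hm H
  have hE4 : Pb p (E4 r Q ρ m1 T) ≤ q := Pb_E4 r Q p ρ m1 q T h0 h1 hq H
  have hmain : Pb p (fun ω : Om n => ¬ colorable ω (T.card + a + j * Q)) ≤
      Pb p (fun ω : Om n => (m1 < ((away ω T).card : ℝ)) ∨ ((a < (away ω T ∩ T).card) ∨
        ((∃ K : Finset (Fin n), K.card = r - 1 ∧ ∀ w, w ∉ K → ∃ u ∈ K, ¬ adj ω w u) ∨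
          E4 r Q ρ m1 T ω))) := by
    apply Pb_mono h0 h1
    intro ω hω
    by_contra hcon
    push Not at hcon
    obtain ⟨e1, e2, e3, e4⟩ := hcon
    apply hω
    refine colorable_of_good hCol hUp r a j Q ρ m1 T hr hrn hQ hρ hm ω e1 e2 e3 ?_
    intro v hv
    by_contra hlt
    exact e4 ⟨e1, v, hv, not_le.1 hlt⟩
  refine hmain.trans ?_
  have o1 := Pb_or h0 h1 (fun ω : Om n => m1 < ((away ω T).card : ℝ))
    (fun ω : Om n => (a < (away ω T ∩ T).card) ∨
        ((∃ K : Finset (Fin n), K.card = r - 1 ∧ ∀ w, w ∉ K → ∃ u ∈ K, ¬ adj ω w u) ∨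
          E4 r Q ρ m1 T ω))
  have o2 := Pb_or h0 h1 (fun ω : Om n => a < (away ω T ∩ T).card)
    (fun ω : Om n => (∃ K : Finset (Fin n), K.card = r - 1 ∧
      ∀ w, w ∉ K → ∃ u ∈ K, ¬ adj ω w u) ∨ E4 r Q ρ m1 T ω)
  have o3 := Pb_or h0 h1 (fun ω : Om n => ∃ K : Finset (Fin n), K.card = r - 1 ∧
      ∀ w, w ∉ K → ∃ u ∈ K, ¬ adj ω w u) (E4 r Q ρ m1 T)
  linarith

end Pool.Agent.L5helper84.CQ
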