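import Pool.Agent.L5helper98.CQ.Stmts

/-!
Project CQ (MP_b09bc5_pr): from the moments of `TaskMom` to `TaskUpR`.
-/

set_option autoImplicit false

namespace Pool.Agent.L5helper84.CQ

open Finset Pool.Agent.L5helper98.CQ
open scoped Classical

/-- `log n` is small compared with powers of `n` -/
lemma log_small (β c : ℝ) (hβ : 0 < β) :
    ∃ n0 : ℕ, ∀ n : ℕ, n0 ≤ n → c * Real.log n * (n : ℝ) ^ (-β) ≤ Real.log 2 := by
  have h1 : Filter.Tendsto (fun x : ℝ => Real.log x / x ^ β) Filter.atTop (nhds 0) :=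
    (isLittleO_log_rpow_atTop hβ).tendsto_div_nhds_zero
  have h2 : Filter.Tendsto (fun x : ℝ => c * (Real.log x / x ^ β)) Filter.atTop (nhds 0) := by
    simpa using h1.const_mul c
  have h3 := h2.comp tendsto_natCast_atTop_atTop
  have h4 : ∀ᶠ n : ℕ in Filter.atTop, c * (Real.log (n : ℝ) / (n : ℝ) ^ β) < Real.log 2 :=
    h3.eventually_lt_const (Real.log_pos (by norm_num))
  obtain ⟨n0, hn0⟩ := Filter.eventually_atTop.1 h4
  refine ⟨n0, fun n hn => ?_⟩
  have h5 := (hn0 n hn).le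
  rw [Real.rpow_neg (Nat.cast_nonneg n)]
  calc c * Real.log n * ((n : ℝ) ^ β)⁻¹ = c * (Real.log (n : ℝ) / (n : ℝ) ^ β) := by ring
    _ ≤ _ := h5

lemma ls_le (n : ℕ) (p : ℝ) (hp : 0 < p) (hp1 : p ≤ 1) (j : ℕ) (hj : 2 ≤ j) :
    ls n p ≤ (j : ℝ) / 2 * Real.log (1 / p) + n * p ^ j / ((j : ℝ) - 1) := by
  have hL : 0 ≤ Real.log (1 / p) := Real.log_nonneg (by rw [le_div_iff₀ hp]; linarith)
  unfold ls
  refine ciInf_le (f := fun r : {r : ℕ // 2 ≤ r} =>
    (r.1 : ℝ) / 2 * Real.log (1 / p) + n * p ^ r.1 / ((r.1 : ℝ) - 1)) ⟨0, ?_⟩ ⟨j, hj⟩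
  rintro _ ⟨r, rfl⟩
  have hr : (2 : ℝ) ≤ r.1 := by exact_mod_cast r.2
  have h1 : 0 < (r.1 : ℝ) - 1 := by linarith
  positivity

lemma choose_fact (i j : ℕ) (hi : 1 ≤ i) (hij : i ≤ j) :
    j * (j - i) ≤ 2 * (j.choose 2 - i.choose 2) := by
  obtain ⟨d, rfl⟩ := Nat.exists_eq_add_of_le hij
  have hle : i.choose 2 ≤ (i + d).choose 2 := Nat.choose_le_choose 2 (by omega)
  have h : (((i + d) * (i + d - i) : ℕ) : ℚ) ≤ ((2 * ((i + d).choose 2 - i.choose 2) : ℕ) : ℚ) := by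
    rw [Nat.add_sub_cancel_left]
    push_cast [Nat.cast_sub hle, Nat.cast_choose_two]
    have hi' : (1 : ℚ) ≤ i := by exact_mod_cast hi
    have hd : (0 : ℚ) ≤ d := by positivity
    nlinarith
  exact_mod_cast h

/-- the exponents of `p` -/
lemma term_p {s p : ℝ} (hs : 1 ≤ s) (hsp : p * s ^ 2 = 1) (hp : 0 < p) (i j : ℕ) (hi : 1 ≤ i)
    (hij : i ≤ j) : s ^ (j * (j - i)) * p ^ (j.choose 2 - i.choose 2) ≤ 1 := by
  calc s ^ (j * (j - i)) * p ^ (j.choose 2 - i.choose 2)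
      ≤ s ^ (2 * (j.choose 2 - i.choose 2)) * p ^ (j.choose 2 - i.choose 2) := by
        apply mul_le_mul_of_nonneg_right _ (by positivity)
        exact pow_le_pow_right₀ hs (choose_fact i j hi hij)
    _ = (p * s ^ 2) ^ (j.choose 2 - i.choose 2) := by
        rw [mul_pow, ← pow_mul, mul_comm]
    _ = 1 := by rw [hsp, one_pow]

lemma term_le {s p m x E : ℝ} (hs : 1 ≤ s) (hsp : p * s ^ 2 = 1) (hp : 0 < p) (hm : 0 ≤ m)
    (hx : 0 ≤ x) (hE : 0 ≤ E) (j : ℕ) (hmx : m ≤ x * s ^ j * E) (i : ℕ) (hi : 1 ≤ i)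
    (hij : i ≤ j) :
    m ^ (j - i) * p ^ (j.choose 2 - i.choose 2) ≤ x ^ (j - i) * E ^ (j - i) := by
  calc m ^ (j - i) * p ^ (j.choose 2 - i.choose 2)
      ≤ (x * s ^ j * E) ^ (j - i) * p ^ (j.choose 2 - i.choose 2) := by
        apply mul_le_mul_of_nonneg_right _ (by positivity)
        exact pow_le_pow_left₀ hm hmx _
    _ = x ^ (j - i) * E ^ (j - i) * (s ^ (j * (j - i)) * p ^ (j.choose 2 - i.choose 2)) := by
        rw [mul_pow, mul_pow, ← pow_mul]; ring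
    _ ≤ x ^ (j - i) * E ^ (j - i) * 1 := by
        apply mul_le_mul_of_nonneg_left (term_p hs hsp hp i j hi hij) (by positivity)
    _ = _ := by ring

/-- moments from a bound for the single terms -/
lemma mom_bound (hMom : TaskMom) {n : ℕ} (j k : ℕ) (p : ℝ) (R V2 : Finset (Fin n)) (v : Fin n)
    (h0 : 0 ≤ p) (h1 : p ≤ 1) (hk : 1 ≤ k) (hj : 2 ≤ j) (hv : v ∈ R) (hdis : Disjoint R V2)
    (x D : ℝ) (hx : 1 ≤ x) (hD : 0 ≤ D)
    (hterm : ∀ i ∈ Icc 1 j, Real.exp (-(V2.card * p ^ j)) * ((R.card : ℝ) ^ (j - i) *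
      p ^ (j.choose 2 - i.choose 2)) ≤ D * x ^ (j - 1))
    (hexp : Real.exp ((k : ℝ) ^ 2 * V2.card * p ^ (j + 1)) ≤ 2) :
    Ex p (fun ω : Om n => ((((hyp ω j R V2).filter (fun K => v ∈ K)).card : ℝ)) ^ k) ≤
      2 * (((k : ℝ) + j * ((k : ℝ) * j) ^ j * D) * x ^ (j - 1)) ^ k := by
  refine (hMom n j k p R V2 v h0 h1 hk hj hv hdis).trans ?_
  have hk' : (1 : ℝ) ≤ k := by exact_mod_cast hk
  have hj' : (2 : ℝ) ≤ j := by exact_mod_cast hj
  have hkj : (1 : ℝ) ≤ (k : ℝ) * j := by nlinarith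
  have hxj : 1 ≤ x ^ (j - 1) := one_le_pow₀ hx
  have hsum : Real.exp (-(V2.card * p ^ j)) *
      ∑ i ∈ Icc 1 j, ((k : ℝ) * j) ^ i * (R.card : ℝ) ^ (j - i) *
        p ^ (j.choose 2 - i.choose 2) ≤ j * ((k : ℝ) * j) ^ j * D * x ^ (j - 1) := by
    rw [Finset.mul_sum]
    calc ∑ i ∈ Icc 1 j, Real.exp (-(V2.card * p ^ j)) * (((k : ℝ) * j) ^ i *
          (R.card : ℝ) ^ (j - i) * p ^ (j.choose 2 - i.choose 2))
        ≤ ∑ _i ∈ Icc 1 j, ((k : ℝ) * j) ^ j * (D * x ^ (j - 1)) := by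
          apply Finset.sum_le_sum
          intro i hi
          have hi2 := (mem_Icc.1 hi).2
          calc Real.exp (-(V2.card * p ^ j)) * (((k : ℝ) * j) ^ i *
                (R.card : ℝ) ^ (j - i) * p ^ (j.choose 2 - i.choose 2))
              = ((k : ℝ) * j) ^ i * (Real.exp (-(V2.card * p ^ j)) * ((R.card : ℝ) ^ (j - i) *
                p ^ (j.choose 2 - i.choose 2))) := by ring
            _ ≤ ((k : ℝ) * j) ^ i * (D * x ^ (j - 1)) :=
                mul_le_mul_of_nonneg_left (hterm i hi) (by positivity)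
            _ ≤ _ := by
                apply mul_le_mul_of_nonneg_right _ (by positivity)
                exact pow_le_pow_right₀ hkj hi2
      _ = j * ((k : ℝ) * j) ^ j * D * x ^ (j - 1) := by
          rw [Finset.sum_const, Nat.card_Icc, Nat.add_sub_cancel, nsmul_eq_mul]
          ring
  apply mul_le_mul hexp _ (by positivity) (by norm_num)
  apply pow_le_pow_left₀
  · positivity
  · nlinarith

/-- Markov's inequality for the `k`-th power -/
lemma markov_pow {n : ℕ} {p : ℝ} (h0 : 0 ≤ p) (h1 : p ≤ 1) (X : Om n → ℝ) (hX : ∀ ω, 0 ≤ X ω)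
    (k : ℕ) (g y B : ℝ) (hg : 0 < g) (hy : 0 < y) (_hB : 0 ≤ B)
    (hE : Ex p (fun ω => X ω ^ k) ≤ 2 * (B * y) ^ k) :
    Pb p (fun ω => g * y / 2 ≤ X ω) ≤ 2 * (2 * B) ^ k / g ^ k := by
  have hgy : 0 < g * y / 2 := by positivity
  calc Pb p (fun ω => g * y / 2 ≤ X ω) ≤ Pb p (fun ω => (g * y / 2) ^ k ≤ X ω ^ k) := by
        apply Pb_mono h0 h1
        intro ω h
        exact pow_le_pow_left₀ hgy.le h k
    _ ≤ Ex p (fun ω => X ω ^ k) / (g * y / 2) ^ k :=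
        markov h0 h1 _ (fun ω => pow_nonneg (hX ω) k) _ (by positivity)
    _ ≤ 2 * (B * y) ^ k / (g * y / 2) ^ k := by gcongr
    _ = 2 * (2 * B) ^ k / g ^ k := by
        rw [div_pow, mul_pow B, mul_pow g, mul_pow 2 B]
        field_simp

theorem taskUpRNum : TaskUpRNum := by
  intro hMom ε β C r hε hβ hβε hC hr
  -- the order of the moment
  obtain ⟨k, hkdef⟩ : ∃ k : ℕ, k = ⌈12 / β⌉₊ := ⟨_, rfl⟩
  have hk12 : 12 / β ≤ k := by rw [hkdef]; exact Nat.le_ceil _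
  have hkpos : (0 : ℝ) < k := lt_of_lt_of_le (by positivity) hk12
  have hk1 : 1 ≤ k := by exact_mod_cast Nat.pos_of_ne_zero (by rintro rfl; simp at hkpos)
  have hk1' : (1 : ℝ) ≤ k := by exact_mod_cast hk1
  obtain ⟨B1, hB1⟩ : ∃ B : ℝ, B = (k : ℝ) + r * ((k : ℝ) * r) ^ r * 2 := ⟨_, rfl⟩
  obtain ⟨B2, hB2⟩ : ∃ B : ℝ, B = (k : ℝ) + ((r + 1 : ℕ) : ℝ) *
    ((k : ℝ) * ((r + 1 : ℕ) : ℝ)) ^ (r + 1) * 2 ^ r := ⟨_, rfl⟩
  have hB1p : 0 ≤ B1 := by rw [hB1]; positivity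
  have hB2p : 0 ≤ B2 := by rw [hB2]; positivity
  obtain ⟨Kc, hKc⟩ : ∃ K : ℝ, K = 2 * (2 * B1) ^ k + 2 * (2 * B2) ^ k := ⟨_, rfl⟩
  have hKcp : 0 ≤ Kc := by rw [hKc]; positivity
  obtain ⟨n1, hn1⟩ := log_small β C hβ
  obtain ⟨n2, hn2⟩ := log_small ε ((k : ℝ) ^ 2 * C) hε
  refine ⟨max (max n1 n2) (max 2 (⌈Kc⌉₊ + 1)), fun n hn p hrng hA R V2 hdis hR hV2 => ?_⟩
  have hnn1 : n1 ≤ n := le_trans (le_trans (le_max_left _ _) (le_max_left _ _)) hn
  have hnn2 : n2 ≤ n := le_trans (le_trans (le_max_right _ _) (le_max_left _ _)) hn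
  have hn2' : 2 ≤ n := le_trans (le_trans (le_max_left _ _) (le_max_right _ _)) hn
  have hnK : ⌈Kc⌉₊ + 1 ≤ n := le_trans (le_trans (le_max_right _ _) (le_max_right _ _)) hn
  obtain ⟨N, hN⟩ : ∃ N : ℝ, N = (n : ℝ) := ⟨_, rfl⟩
  have hNn : (2 : ℝ) ≤ N := by rw [hN]; exact_mod_cast hn2'
  have hN0 : 0 < N := by linarith
  have hN1 : 1 ≤ N := by linarith
  have hNK : Kc ≤ N := by
    have h1 : Kc ≤ ⌈Kc⌉₊ := Nat.le_ceil _
    have h2 : ((⌈Kc⌉₊ : ℕ) : ℝ) + 1 ≤ (n : ℝ) := by exact_mod_cast hnK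
    rw [hN]; linarith
  have hlog0 : 0 ≤ Real.log N := Real.log_nonneg hN1
  obtain ⟨hp1, hp2⟩ := hrng
  rw [← hN] at hp1 hp2 hA hR hV2 ⊢
  have hp0 : 0 < p := lt_of_lt_of_le (Real.rpow_pos_of_pos hN0 _) hp1
  have hple : p ≤ 1 := hp2.trans (Real.rpow_le_one_of_one_le_of_nonpos hN1 (by linarith))
  -- the parameters
  obtain ⟨s, hs⟩ : ∃ s : ℝ, s = Real.exp (Real.log (1 / p) / 2) := ⟨_, rfl⟩
  have hLp : 0 ≤ Real.log (1 / p) := Real.log_nonneg (by rw [le_div_iff₀ hp0]; linarith)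
  have hs1 : 1 ≤ s := by rw [hs]; exact Real.one_le_exp (by linarith)
  have hs2 : s ^ 2 = 1 / p := by
    rw [hs, ← Real.exp_nat_mul]
    rw [show ((2 : ℕ) : ℝ) * (Real.log (1 / p) / 2) = Real.log (1 / p) by push_cast; ring]
    exact Real.exp_log (by positivity)
  have hsp : p * s ^ 2 = 1 := by rw [hs2]; field_simp
  obtain ⟨x, hx⟩ : ∃ x : ℝ, x = N ^ (-β) / p := ⟨_, rfl⟩
  have hx1 : 1 ≤ x := by
    rw [hx, le_div_iff₀ hp0, one_mul]
    exact hp2.trans (Real.rpow_le_rpow_of_exponent_le hN1 (by linarith))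
  have hx0 : 0 < x := by linarith
  -- the size of `R`
  have hRls : (R.card : ℝ) ≤ x * Real.exp (ls n p) := by
    rw [hx]
    calc (R.card : ℝ) ≤ N ^ (-β) * Real.exp (ls n p) / p := hR
      _ = _ := by ring
  have hels : ∀ j : ℕ, 2 ≤ j → Real.exp (ls n p) ≤ s ^ j * Real.exp (N * p ^ j / ((j : ℝ) - 1)) := by
    intro j hj
    calc Real.exp (ls n p)
        ≤ Real.exp ((j : ℝ) / 2 * Real.log (1 / p) + n * p ^ j / ((j : ℝ) - 1)) :=
          Real.exp_le_exp.2 (ls_le n p hp0 hple j hj)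
      _ = s ^ j * Real.exp (N * p ^ j / ((j : ℝ) - 1)) := by
          rw [Real.exp_add, hs, ← Real.exp_nat_mul, hN]
          congr 2
          ring
  -- the sizes of the small quantities
  have hlog2 : Real.exp (Real.log 2) = 2 := Real.exp_log (by norm_num)
  have hApos : 0 ≤ N * p ^ r := by positivity
  have hAp : (k : ℝ) ^ 2 * (N * p ^ (r + 1)) ≤ Real.log 2 := by
    calc (k : ℝ) ^ 2 * (N * p ^ (r + 1)) = (k : ℝ) ^ 2 * (N * p ^ r) * p := by ring
      _ ≤ (k : ℝ) ^ 2 * (C * Real.log N) * N ^ (-ε) := by gcongr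
      _ = (k : ℝ) ^ 2 * C * Real.log N * N ^ (-ε) := by ring
      _ ≤ Real.log 2 := by
          have := hn2 n hnn2
          rwa [← hN] at this
  have hAp' : N * p ^ (r + 1) ≤ Real.log 2 := by
    refine le_trans ?_ hAp
    have h1 : (1 : ℝ) ≤ (k : ℝ) ^ 2 := one_le_pow₀ hk1'
    have h2 : 0 ≤ N * p ^ (r + 1) := by positivity
    nlinarith
  have hV2n : (V2.card : ℝ) ≤ N := by
    rw [hN]
    have := Finset.card_le_univ V2
    rw [Fintype.card_fin] at this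
    exact_mod_cast this
  have hVA : N * p ^ r - V2.card * p ^ r ≤ Real.log 2 := by
    have h1 : N - V2.card ≤ N ^ (1 - β) := by linarith
    have h2 : N ^ (1 - β) = N * N ^ (-β) := by
      rw [show (1 : ℝ) - β = 1 + -β by ring, Real.rpow_add hN0, Real.rpow_one]
    have h3 := hn1 n hnn1
    rw [← hN] at h3
    calc N * p ^ r - V2.card * p ^ r = (N - V2.card) * p ^ r := by ring
      _ ≤ N ^ (1 - β) * p ^ r := by gcongr
      _ = (N * p ^ r) * N ^ (-β) := by rw [h2]; ring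
      _ ≤ (C * Real.log N) * N ^ (-β) := by gcongr
      _ ≤ Real.log 2 := h3
  have hr2 : (2 : ℝ) ≤ r := by exact_mod_cast hr
  have hr1 : (0 : ℝ) < (r : ℝ) - 1 := by linarith
  -- first moment bound
  have mom1 : ∀ v ∈ R,
      Ex p (fun ω : Om n => ((((hyp ω r R V2).filter (fun K => v ∈ K)).card : ℝ)) ^ k) ≤
        2 * (B1 * x ^ (r - 1)) ^ k := by
    intro v hv
    rw [hB1]
    refine mom_bound hMom r k p R V2 v hp0.le hple hk1 hr hv hdis x 2 hx1 (by norm_num) ?_ ?_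
    · intro i hi
      obtain ⟨hi1, hi2⟩ := mem_Icc.1 hi
      have ht := term_le hs1 hsp hp0 (Nat.cast_nonneg R.card) hx0.le
        (Real.exp_nonneg (N * p ^ r / ((r : ℝ) - 1))) r
        (by
          calc (R.card : ℝ) ≤ x * Real.exp (ls n p) := hRls
            _ ≤ x * (s ^ r * Real.exp (N * p ^ r / ((r : ℝ) - 1))) := by
                apply mul_le_mul_of_nonneg_left (hels r hr) hx0.le
            _ = _ := by ring) i hi1 hi2
      have hE : Real.exp (N * p ^ r / ((r : ℝ) - 1)) ^ (r - i) ≤ Real.exp (N * p ^ r) := by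
        rw [← Real.exp_nat_mul]
        apply Real.exp_le_exp.2
        have h1 : ((r - i : ℕ) : ℝ) ≤ (r : ℝ) - 1 := by
          rw [Nat.cast_sub hi2]
          have : (1 : ℝ) ≤ i := by exact_mod_cast hi1
          linarith
        calc ((r - i : ℕ) : ℝ) * (N * p ^ r / ((r : ℝ) - 1))
            ≤ ((r : ℝ) - 1) * (N * p ^ r / ((r : ℝ) - 1)) := by gcongr
          _ = N * p ^ r := by field_simp
      calc Real.exp (-(V2.card * p ^ r)) * ((R.card : ℝ) ^ (r - i) *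
            p ^ (r.choose 2 - i.choose 2))
          ≤ Real.exp (-(V2.card * p ^ r)) * (x ^ (r - i) * Real.exp (N * p ^ r)) := by
            apply mul_le_mul_of_nonneg_left _ (Real.exp_nonneg _)
            refine ht.trans ?_
            apply mul_le_mul_of_nonneg_left hE (by positivity)
        _ = Real.exp (N * p ^ r - V2.card * p ^ r) * x ^ (r - i) := by
            rw [Real.exp_sub, Real.exp_neg]; ring
        _ ≤ 2 * x ^ (r - 1) := by
            apply mul_le_mul _ _ (by positivity) (by norm_num)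
            · rw [← hlog2]; exact Real.exp_le_exp.2 hVA
            · exact pow_le_pow_right₀ hx1 (by omega)
    · rw [← hlog2]
      apply Real.exp_le_exp.2
      refine le_trans ?_ hAp
      calc (k : ℝ) ^ 2 * V2.card * p ^ (r + 1) ≤ (k : ℝ) ^ 2 * N * p ^ (r + 1) := by gcongr
        _ = _ := by ring
  -- second moment bound
  have mom2 : ∀ v ∈ R,
      Ex p (fun ω : Om n => ((((hyp ω (r + 1) R ∅).filter (fun K => v ∈ K)).card : ℝ)) ^ k) ≤
        2 * (B2 * x ^ r) ^ k := by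
    intro v hv
    rw [hB2]
    refine mom_bound hMom (r + 1) k p R ∅ v hp0.le hple hk1 (by omega) hv
      (disjoint_empty_right _) x (2 ^ r) hx1 (by positivity) ?_ ?_
    · intro i hi
      obtain ⟨hi1, hi2⟩ := mem_Icc.1 hi
      have hE2 : Real.exp (N * p ^ (r + 1) / (((r + 1 : ℕ) : ℝ) - 1)) ≤ 2 := by
        rw [← hlog2]
        apply Real.exp_le_exp.2
        refine le_trans ?_ hAp'
        push_cast
        rw [add_sub_cancel_right]
        apply div_le_self (by positivity) (by linarith)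
      have ht := term_le hs1 hsp hp0 (Nat.cast_nonneg R.card) hx0.le (by norm_num : (0 : ℝ) ≤ 2)
        (r + 1)
        (by
          calc (R.card : ℝ) ≤ x * Real.exp (ls n p) := hRls
            _ ≤ x * (s ^ (r + 1) * Real.exp (N * p ^ (r + 1) / (((r + 1 : ℕ) : ℝ) - 1))) := by
                apply mul_le_mul_of_nonneg_left (hels (r + 1) (by omega)) hx0.le
            _ ≤ x * (s ^ (r + 1) * 2) := by gcongr
            _ = _ := by ring) i hi1 hi2
      rw [card_empty, Nat.cast_zero, zero_mul, neg_zero, Real.exp_zero, one_mul]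
      refine ht.trans ?_
      rw [Nat.add_sub_cancel]
      calc x ^ (r + 1 - i) * 2 ^ (r + 1 - i) ≤ x ^ r * 2 ^ r := by
            apply mul_le_mul _ _ (by positivity) (by positivity)
            · exact pow_le_pow_right₀ hx1 (by omega)
            · exact pow_le_pow_right₀ (by norm_num) (by omega)
        _ = _ := by ring
    · rw [card_empty, Nat.cast_zero, mul_zero, zero_mul, Real.exp_zero]
      norm_num
  -- the number of colours
  obtain ⟨g, hg⟩ : ∃ g : ℝ, g = N ^ (β / 4) := ⟨_, rfl⟩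
  have hg1 : 1 ≤ g := by rw [hg]; exact Real.one_le_rpow hN1 (by positivity)
  have hg0 : 0 < g := by linarith
  have hginv : N ^ (-β / 4) = g⁻¹ := by
    rw [hg, ← Real.rpow_neg hN0.le]; congr 1; ring
  have hw : N ^ (-β / 2) / p = g ^ 2 * x := by
    rw [hg, hx, ← Real.rpow_natCast, ← Real.rpow_mul hN0.le]
    rw [show (-β / 2 : ℝ) = β / 4 * ((2 : ℕ) : ℝ) + -β by push_cast; ring, Real.rpow_add hN0]
    ring
  obtain ⟨Q, hQ⟩ : ∃ Q : ℕ, Q = ⌈N ^ (-β / 2) / p⌉₊ := ⟨_, rfl⟩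
  have hQw : g ^ 2 * x ≤ (Q : ℝ) := by rw [hQ, ← hw]; exact Nat.le_ceil _
  have hQ0 : (0 : ℝ) < Q := lt_of_lt_of_le (by positivity) hQw
  rw [← hQ, hginv]
  -- from the weighted degree to the number of cliques
  have conv : ∀ (X : ℝ) (j : ℕ), 1 ≤ j → 0 ≤ X → g⁻¹ / 2 ≤ X * (1 / (Q : ℝ)) ^ j →
      g * x ^ j / 2 ≤ X := by
    intro X j hj hX h
    have h1 : (1 / (Q : ℝ)) ^ j ≤ (1 / (g ^ 2 * x)) ^ j := by
      apply pow_le_pow_left₀ (by positivity)
      apply one_div_le_one_div_of_le (by positivity) hQw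
    have h2 : g⁻¹ / 2 ≤ X * (1 / (g ^ 2 * x)) ^ j :=
      h.trans (mul_le_mul_of_nonneg_left h1 hX)
    have h3 : (1 / (g ^ 2 * x)) ^ j = 1 / ((g ^ 2) ^ j * x ^ j) := by
      rw [div_pow, one_pow, mul_pow]
    have h4 : g ^ 2 ≤ (g ^ 2) ^ j := by
      calc g ^ 2 = (g ^ 2) ^ 1 := (pow_one _).symm
        _ ≤ (g ^ 2) ^ j := pow_le_pow_right₀ (one_le_pow₀ hg1) hj
    have h5 : (1 : ℝ) / ((g ^ 2) ^ j * x ^ j) ≤ 1 / (g ^ 2 * x ^ j) := by
      apply one_div_le_one_div_of_le (by positivity)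
      gcongr
    have h6 : g⁻¹ / 2 ≤ X * (1 / (g ^ 2 * x ^ j)) := by
      rw [h3] at h2
      exact h2.trans (mul_le_mul_of_nonneg_left h5 hX)
    rw [mul_one_div, le_div_iff₀ (by positivity)] at h6
    calc g * x ^ j / 2 = g⁻¹ / 2 * (g ^ 2 * x ^ j) := by field_simp
      _ ≤ X := h6
  -- the probability for one vertex
  have hgk : N ^ 3 ≤ g ^ k := by
    rw [hg, ← Real.rpow_natCast (N ^ (β / 4)) k, ← Real.rpow_mul hN0.le, ← Real.rpow_natCast N 3]
    apply Real.rpow_le_rpow_of_exponent_le hN1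
    rw [div_le_iff₀ hβ] at hk12
    push_cast
    nlinarith
  have one : ∀ v ∈ R, Pb p (fun ω : Om n => g⁻¹ <
      (((hyp ω r R V2).filter (fun K => v ∈ K)).card : ℝ) * (1 / (Q : ℝ)) ^ (r - 1) +
        (((hyp ω (r + 1) R ∅).filter (fun K => v ∈ K)).card : ℝ) * (1 / (Q : ℝ)) ^ r) ≤
      Kc / N ^ 3 := by
    intro v hv
    have e1 := markov_pow hp0.le hple
      (fun ω : Om n => (((hyp ω r R V2).filter (fun K => v ∈ K)).card : ℝ))
      (fun ω => Nat.cast_nonneg _) k g (x ^ (r - 1)) B1 hg0 (by positivity) hB1p (mom1 v hv)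
    have e2 := markov_pow hp0.le hple
      (fun ω : Om n => (((hyp ω (r + 1) R ∅).filter (fun K => v ∈ K)).card : ℝ))
      (fun ω => Nat.cast_nonneg _) k g (x ^ r) B2 hg0 (by positivity) hB2p (mom2 v hv)
    have e3 : Pb p (fun ω : Om n => g⁻¹ <
        (((hyp ω r R V2).filter (fun K => v ∈ K)).card : ℝ) * (1 / (Q : ℝ)) ^ (r - 1) +
        (((hyp ω (r + 1) R ∅).filter (fun K => v ∈ K)).card : ℝ) * (1 / (Q : ℝ)) ^ r) ≤
        Pb p (fun ω : Om n =>
          (g * x ^ (r - 1) / 2 ≤ (((hyp ω r R V2).filter (fun K => v ∈ K)).card : ℝ)) ∨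
          (g * x ^ r / 2 ≤ (((hyp ω (r + 1) R ∅).filter (fun K => v ∈ K)).card : ℝ))) := by
      apply Pb_mono hp0.le hple
      intro ω h
      by_cases h1 : g⁻¹ / 2 ≤
          (((hyp ω r R V2).filter (fun K => v ∈ K)).card : ℝ) * (1 / (Q : ℝ)) ^ (r - 1)
      · exact Or.inl (conv _ _ (by omega) (Nat.cast_nonneg _) h1)
      · refine Or.inr (conv _ _ (by omega) (Nat.cast_nonneg _) ?_)
        linarith
    refine e3.trans ((Pb_or hp0.le hple _ _).trans ?_)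
    have hKk : Kc / g ^ k ≤ Kc / N ^ 3 := by
      apply div_le_div_of_nonneg_left hKcp (by positivity) hgk
    refine le_trans ?_ hKk
    rw [hKc, add_div]
    exact add_le_add e1 e2
  refine (Pb_exists_mem hp0.le hple R _).trans ?_
  refine (Finset.sum_le_sum one).trans ?_
  rw [Finset.sum_const, nsmul_eq_mul]
  have hRn : (R.card : ℝ) ≤ N := by
    rw [hN]
    have := Finset.card_le_univ R
    rw [Fintype.card_fin] at this
    exact_mod_cast this
  calc (R.card : ℝ) * (Kc / N ^ 3) ≤ N * (N / N ^ 3) := by gcongr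
    _ = 1 / N := by field_simp

end Pool.Agent.L5helper84.CQ
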